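import Mathlib

/-!
# The sequence `(1 + k + k²) / k!` is not a complex zero decreasing sequence
-/

namespace Pool.Agent.Results.MP_664f87_an.NotCZDS

open Polynomial Finset

/-- the number of non-real zeros, counted with multiplicity -/
noncomputable def Zc (f : ℝ[X]) : ℕ := by
  classical
  exact ((f.map (algebraMap ℝ ℂ)).roots.filter fun z => z.im ≠ 0).card

/-- the action of a sequence on polynomials, `∑ a_k x^k ↦ ∑ γ_k a_k x^k` -/
noncomputable def act (γ : ℕ → ℝ) (f : ℝ[X]) : ℝ[X] := f.sum fun k a => monomial k (γ k * a)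

/-- complex zero decreasing sequences -/
def IsCZDS (γ : ℕ → ℝ) : Prop := ∀ f : ℝ[X], Zc (act γ f) ≤ Zc f

theorem act_coeff (γ : ℕ → ℝ) (f : ℝ[X]) (k : ℕ) : (act γ f).coeff k = γ k * f.coeff k := by
  unfold act
  rw [Polynomial.sum_def, finsetSum_coeff]
  simp only [coeff_monomial]
  rw [Finset.sum_ite_eq' f.support k (fun i => γ i * f.coeff i)]
  split_ifs with h
  · rfl
  · rw [notMem_support_iff.1 h, mul_zero]

def AL : List ℕ :=
  [100000000000, 2521454835669, 39632754065372, 437258864902589, 3633823116280797,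
    23815011112324707, 127056249244388812, 564685180484736793, 2127110136278741144,
    6882100974517676809, 19324972957629346624, 47485513092563007479, 102776921526091581088,
    196964353010667913632, 335601700922252914190, 510020904367577338088,
    692963885118566654593, 843157829464617815958, 919621147342507882922,
    899413749055335507534, 788561391149388168085, 619201936642742553158,
    434760507484766686601, 272311922081516787000, 151668765754136773518,
    74804765815367480358, 32497351849114418484, 12351040142816114755, 4071357145543534408,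
    1151133211470334601, 275138105716947443, 54519627224709878, 8716846122164356,
    1080624941978566, 97471726630502, 5691175253163, 161461366078]

def AN (k : ℕ) : ℕ := AL.getD k 0

/-- the coefficients of the square root of the polynomial -/
def pQ (k : ℕ) : ℚ := (-1) ^ k * (AN k : ℚ) / (k.factorial : ℚ)

def SQ : ℚ := ∑ k ∈ range 73, ∑ x ∈ antidiagonal k, pQ x.1 * pQ x.2 *
  ((k.factorial : ℚ) / (1 + k + k ^ 2))

theorem SQ_neg : SQ + 1 < 0 := by decide +kernel

theorem AN_zero {k : ℕ} (hk : 37 ≤ k) : AN k = 0 := by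
  unfold AN
  rw [List.getD_eq_default]
  exact hk

/-- the coefficients as real numbers -/
noncomputable def pR (k : ℕ) : ℝ := ((pQ k : ℚ) : ℝ)

theorem pR_zero {k : ℕ} (hk : 37 ≤ k) : pR k = 0 := by
  unfold pR pQ
  rw [AN_zero hk]
  simp

noncomputable def P : ℝ[X] := ∑ k ∈ range 37, monomial k (pR k)

theorem P_coeff (k : ℕ) : P.coeff k = pR k := by
  unfold P
  rw [finsetSum_coeff]
  simp only [coeff_monomial]
  rw [Finset.sum_ite_eq' (range 37) k (fun i => pR i)]
  split_ifs with h
  · rfl
  · rw [mem_range, not_lt] at h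
    exact (pR_zero h).symm

/-- a polynomial without real zeros -/
noncomputable def G : ℝ[X] := P * P + 1

theorem pR36 : pR 36 ≠ 0 := by
  have h : pQ 36 ≠ 0 := by decide +kernel
  unfold pR
  exact_mod_cast h

theorem P_natDegree : P.natDegree = 36 := by
  refine natDegree_eq_of_le_of_coeff_ne_zero ?_ (by rw [P_coeff]; exact pR36)
  rw [natDegree_le_iff_coeff_eq_zero]
  intro k hk
  rw [P_coeff]
  exact pR_zero hk

theorem P_ne : P ≠ 0 := fun h => pR36 (by rw [← P_coeff, h, coeff_zero])

theorem PP_natDegree : (P * P).natDegree = 72 := by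
  rw [natDegree_mul P_ne P_ne, P_natDegree]

theorem G_natDegree : G.natDegree = 72 := by
  unfold G
  rw [natDegree_add_eq_left_of_natDegree_lt]
  · exact PP_natDegree
  · rw [natDegree_one, PP_natDegree]
    norm_num

theorem G_pos (x : ℝ) : 0 < G.eval x := by
  unfold G
  rw [eval_add, eval_mul, eval_one]
  nlinarith [mul_self_nonneg (P.eval x)]

/-- the sequence of the question -/
noncomputable def γ (k : ℕ) : ℝ := (1 + k + (k : ℝ) ^ 2) / (k.factorial : ℝ)

theorem γ_pos (k : ℕ) : 0 < γ k := by
  unfold γ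
  have : 0 < (k.factorial : ℝ) := by exact_mod_cast k.factorial_pos
  positivity

/-- the preimage of `G` -/
noncomputable def f : ℝ[X] := ∑ k ∈ range 73, monomial k (G.coeff k / γ k)

theorem f_coeff (k : ℕ) : f.coeff k = G.coeff k / γ k := by
  unfold f
  rw [finsetSum_coeff]
  simp only [coeff_monomial]
  rw [Finset.sum_ite_eq' (range 73) k (fun i => G.coeff i / γ i)]
  split_ifs with h
  · rfl
  · rw [mem_range, not_lt] at h
    rw [coeff_eq_zero_of_natDegree_lt (by rw [G_natDegree]; omega), zero_div]

theorem act_f : act γ f = G := by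
  ext k
  rw [act_coeff, f_coeff]
  have := (γ_pos k).ne'
  field_simp

theorem G_lead : 0 < G.coeff 72 := by
  have h1 : G.coeff 72 = pR 36 * pR 36 := by
    unfold G
    rw [coeff_add, coeff_one, if_neg (by norm_num), add_zero]
    have h2 : (P * P).coeff 72 = (P * P).leadingCoeff := by unfold leadingCoeff; rw [PP_natDegree]
    have h3 : P.leadingCoeff = pR 36 := by unfold leadingCoeff; rw [P_natDegree, P_coeff]
    rw [h2, leadingCoeff_mul, h3]
  rw [h1]
  exact mul_self_pos.2 pR36

theorem f_natDegree : f.natDegree = 72 := by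
  refine natDegree_eq_of_le_of_coeff_ne_zero ?_ ?_
  · rw [natDegree_le_iff_coeff_eq_zero]
    intro k hk
    rw [f_coeff, coeff_eq_zero_of_natDegree_lt (by rw [G_natDegree]; exact hk), zero_div]
  · rw [f_coeff]
    exact (div_pos G_lead (γ_pos 72)).ne'

theorem f_lead : 0 < f.leadingCoeff := by
  unfold leadingCoeff
  rw [f_natDegree, f_coeff]
  exact div_pos G_lead (γ_pos 72)

theorem f_zero : 0 < f.eval 0 := by
  rw [← coeff_zero_eq_eval_zero, f_coeff, coeff_zero_eq_eval_zero]
  exact div_pos (G_pos 0) (γ_pos 0)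

theorem f_one : f.eval 1 < 0 := by
  have h1 : f.eval 1 = ∑ k ∈ range 73, G.coeff k / γ k := by
    rw [eval_eq_sum_range, f_natDegree]
    refine Finset.sum_congr rfl fun k _ => ?_
    rw [f_coeff, one_pow, mul_one]
  have h2 : ∀ k, G.coeff k / γ k = (P * P).coeff k / γ k + (if k = 0 then 1 else 0) := by
    intro k
    unfold G
    rw [coeff_add, coeff_one, add_div]
    congr 1
    by_cases h3 : k = 0
    · subst h3
      unfold γ
      norm_num
    · rw [if_neg h3]; simp [h3]
  have h3 : ∑ k ∈ range 73, (P * P).coeff k / γ k = ((SQ : ℚ) : ℝ) := by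
    unfold SQ
    push_cast
    refine Finset.sum_congr rfl fun k _ => ?_
    rw [coeff_mul, Finset.sum_div]
    refine Finset.sum_congr rfl fun x _ => ?_
    rw [P_coeff, P_coeff]
    unfold γ pR
    have : (k.factorial : ℝ) ≠ 0 := by exact_mod_cast k.factorial_ne_zero
    field_simp
  rw [h1, Finset.sum_congr rfl (fun k _ => h2 k), Finset.sum_add_distrib, h3,
    Finset.sum_ite_eq' (range 73) 0 (fun _ => (1 : ℝ)), if_pos (by simp)]
  exact_mod_cast SQ_neg

theorem Zc_G : Zc G = 72 := by
  classical
  unfold Zc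
  rw [Multiset.filter_eq_self.2]
  · rw [← (IsAlgClosed.splits (G.map (algebraMap ℝ ℂ))).natDegree_eq_card_roots, natDegree_map,
      G_natDegree]
  · intro z hz him
    rw [mem_roots'] at hz
    have hz' : z = ((z.re : ℝ) : ℂ) := by
      apply Complex.ext <;> simp [him]
    have h1 := hz.2
    rw [IsRoot.def, hz', ← Complex.coe_algebraMap, eval_map_algebraMap,
      aeval_algebraMap_apply] at h1
    have h2 : (aeval z.re) G = 0 := by
      have := (algebraMap ℝ ℂ).injective (h1.trans (map_zero _).symm)
      exact this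
    rw [Polynomial.coe_aeval_eq_eval] at h2
    exact (G_pos z.re).ne' h2

theorem exists_roots : ∃ a b : ℝ, a < b ∧ f.eval a = 0 ∧ f.eval b = 0 := by
  have hc : Continuous fun x => f.eval x := f.continuous
  obtain ⟨a, ha, ha'⟩ : ∃ a ∈ Set.Icc (0 : ℝ) 1, f.eval a = 0 :=
    intermediate_value_Icc' (by norm_num) hc.continuousOn ⟨f_one.le, f_zero.le⟩
  have htop : Filter.Tendsto (fun x => f.eval x) Filter.atTop Filter.atTop :=
    f.tendsto_atTop_of_leadingCoeff_nonneg (by
      rw [← natDegree_pos_iff_degree_pos, f_natDegree]; norm_num) f_lead.le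
  obtain ⟨c, hc1, hc2⟩ := ((htop.eventually_ge_atTop 1).and (Filter.eventually_ge_atTop 1)).exists
  obtain ⟨b, hb, hb'⟩ : ∃ b ∈ Set.Icc (1 : ℝ) c, f.eval b = 0 :=
    intermediate_value_Icc hc2 hc.continuousOn ⟨f_one.le, by linarith⟩
  refine ⟨a, b, ?_, ha', hb'⟩
  have h1 : a ≠ 1 := fun h => by rw [h] at ha'; exact f_one.ne ha'
  exact lt_of_lt_of_le (lt_of_le_of_ne ha.2 h1) hb.1

theorem Zc_f : Zc f ≤ 70 := by
  classical
  obtain ⟨a, b, hab, ha, hb⟩ := exists_roots
  have hf0 : f.map (algebraMap ℝ ℂ) ≠ 0 := by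
    rw [Polynomial.map_ne_zero_iff (algebraMap ℝ ℂ).injective]
    intro h
    have := f_lead
    rw [h] at this
    simp at this
  have hmem : ∀ x : ℝ, f.eval x = 0 → (x : ℂ) ∈ (f.map (algebraMap ℝ ℂ)).roots := by
    intro x hx
    rw [mem_roots hf0, IsRoot.def, ← Complex.coe_algebraMap, eval_map_algebraMap,
      aeval_algebraMap_apply, Polynomial.coe_aeval_eq_eval, hx, map_zero]
  have hle : ({(a : ℂ), (b : ℂ)} : Multiset ℂ) ≤
      (f.map (algebraMap ℝ ℂ)).roots.filter fun z => ¬ z.im ≠ 0 := by
    rw [Multiset.le_iff_subset (by simp [hab.ne])]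
    intro z hz
    rw [Multiset.mem_filter]
    simp only [Multiset.insert_eq_cons, Multiset.mem_cons, Multiset.mem_singleton] at hz
    rcases hz with rfl | rfl
    · exact ⟨hmem a ha, by simp⟩
    · exact ⟨hmem b hb, by simp⟩
  have h2 := Multiset.card_le_card hle
  have h3 := Multiset.filter_add_not (fun z : ℂ => z.im ≠ 0) (f.map (algebraMap ℝ ℂ)).roots
  have h4 := congrArg Multiset.card h3
  rw [Multiset.card_add] at h4
  have h5 := card_roots' (f.map (algebraMap ℝ ℂ))
  rw [natDegree_map, f_natDegree] at h5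
  simp only [Multiset.insert_eq_cons, Multiset.card_cons, Multiset.card_singleton] at h2
  unfold Zc
  omega

/-- **Main theorem.** The sequence `(1 + k + k²) / k!` is not a complex zero decreasing sequence. -/
theorem result : ¬ IsCZDS (fun k => (1 + (k : ℝ) + (k : ℝ) ^ 2) / (k.factorial : ℝ)) := by
  intro h
  have h1 : Zc (act γ f) ≤ Zc f := h f
  rw [act_f, Zc_G] at h1
  have h2 := Zc_f
  omega

end Pool.Agent.Results.MP_664f87_an.NotCZDS
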